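import Pool.Agent.Y325.BG.Stm

/-!
# Orbits of vectors in the domain of the generator; matrix coefficients (job BG-DER)
-/

set_option autoImplicit false

open Filter Topology
open Pool.Agent.Y325.BG

namespace Pool.Agent.Y776.BG.Der

universe u v

/-- the orbit of a vector in the domain is differentiable everywhere -/
theorem t1 : StmDer.{u,v} := by
  intro 𝓗 _ _ _ E _ _ U _ hadd f ξ η hg t
  rw [hasDerivAt_iff_tendsto_slope_zero]
  have h1 := ((U (t • f)).continuous.tendsto _).comp (hg.const_smul Complex.I)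
  rw [map_smul] at h1
  refine h1.congr fun s => ?_
  simp only [Function.comp]
  have h2 : Complex.I • ((s : ℂ) * Complex.I)⁻¹ • (U (s • f) ξ - ξ) = s⁻¹ • (U (s • f) ξ - ξ) := by
    rw [smul_smul, mul_inv, mul_comm, mul_assoc, inv_mul_cancel₀ Complex.I_ne_zero, mul_one,
      ← Complex.ofReal_inv, Complex.coe_smul]
  rw [h2, ← Complex.coe_smul s⁻¹ (U (s • f) ξ - ξ), map_smul, Complex.coe_smul, map_sub, add_smul, hadd]
  rfl

theorem inner_U {𝓗 : Type v} [NormedAddCommGroup 𝓗] [InnerProductSpace ℂ 𝓗] [CompleteSpace 𝓗]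
    {E : Type u} [NormedAddCommGroup E] [InnerProductSpace ℝ E] {U : E → 𝓗 →L[ℂ] 𝓗}
    (hst : ∀ f, star (U f) = U (-f)) (f : E) (x y : 𝓗) :
    inner ℂ x (U f y) = inner ℂ (U (-f) x) y := by
  rw [← hst f, ContinuousLinearMap.star_eq_adjoint, ContinuousLinearMap.adjoint_inner_left]

/-- matrix coefficients of the image under the generator -/
theorem t2 : StmKer.{u,v} := by
  intro 𝓗 _ _ _ E _ _ U h0 hadd hst f ξ η ξ' η' hg hg' B hB k k1 k2 hk hk1 hk2 r
  have hd : ∀ r : ℝ, inner ℂ ξ (B (U (r • f) η')) = -Complex.I * k1 r := by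
    intro r
    have e1 := t1 h0 hadd hg' r
    have e2 : HasDerivAt (fun s : ℝ => inner ℂ ξ (B (U (s • f) ξ')))
        (inner ℂ ξ (B (Complex.I • U (r • f) η'))) r :=
      ((innerSL ℂ ξ).comp B).hasFDerivAt.restrictScalars ℝ |>.comp_hasDerivAt r e1
    have e3 : (fun s : ℝ => inner ℂ ξ (B (U (s • f) ξ'))) = k := funext hk
    rw [e3] at e2
    have e4 := e2.unique (hk1 r)
    rw [map_smul, inner_smul_right] at e4
    rw [← e4, ← mul_assoc, neg_mul, Complex.I_mul_I, neg_neg, one_mul]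
  refine ⟨hd r, ?_⟩
  have hBU : ∀ (t : ℝ) (x y : 𝓗), inner ℂ x (B (U (t • f) y)) = inner ℂ (U ((-t) • f) x) (B y) := by
    intro t x y
    have e1 : B (U (t • f) y) = U (t • f) (B y) := by
      have := congrArg (fun T : 𝓗 →L[ℂ] 𝓗 => T y) (hB t)
      exact this
    rw [e1, inner_U hst, neg_smul]
  have e1 : HasDerivAt (fun s : ℝ => U ((-s) • f) ξ) (-(Complex.I • U ((-r) • f) η)) r := by
    have a1 := t1 h0 hadd hg (-r)
    have a2 : HasDerivAt (fun s : ℝ => -s) (-1) r := hasDerivAt_neg r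
    have a3 := a1.scomp r a2
    rw [neg_one_smul] at a3
    exact a3
  have e2 : HasDerivAt (fun s : ℝ => inner ℂ (U ((-s) • f) ξ) (B η'))
      (inner ℂ (-(Complex.I • U ((-r) • f) η)) (B η')) r := by
    have a1 := e1.inner ℂ (hasDerivAt_const r (B η'))
    rw [inner_zero_right, zero_add] at a1
    exact a1
  have e3 : (fun s : ℝ => inner ℂ (U ((-s) • f) ξ) (B η')) = fun s => -Complex.I * k1 s := by
    funext s
    rw [← hBU, hd]
  rw [e3] at e2
  have e4 := e2.unique ((hk2 r).const_mul (-Complex.I))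
  rw [inner_neg_left, inner_smul_left, Complex.conj_I, ← hBU] at e4
  have e5 : Complex.I * inner ℂ η (B (U (r • f) η')) = Complex.I * (-k2 r) := by
    rw [mul_neg, ← neg_mul, ← e4]
    ring
  exact mul_left_cancel₀ Complex.I_ne_zero e5

end Pool.Agent.Y776.BG.Der
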