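import Pool.Agent.Y325.BG.Stm

/-!
# Existence of the derivative from a twice differentiable matrix coefficient (job BG-DOM)
-/

set_option autoImplicit false

open Filter Topology
open Pool.Agent.Y325.BG

namespace Pool.Agent.Y776.BG.Dom

universe u v

theorem second_diff {k k1 k2 : ℝ → ℂ} (hk : ∀ r, HasDerivAt k (k1 r) r)
    (hk1 : ∀ r, HasDerivAt k1 (k2 r) r) (hc : ContinuousAt k2 0) :
    Tendsto (fun p : ℝ × ℝ => ((p.1 : ℂ) * p.2)⁻¹ * (k (p.2 - p.1) - k (-p.1) - k p.2 + k 0))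
      ((𝓝[≠] 0) ×ˢ (𝓝[≠] 0)) (𝓝 (-k2 0)) := by
  rw [Metric.tendsto_nhds]
  intro ε hε
  obtain ⟨δ, hδ, hδ'⟩ := Metric.continuousAt_iff.1 hc (ε / 2) (half_pos hε)
  have hd : 0 < δ / 2 := half_pos hδ
  have hev : ∀ᶠ t : ℝ in 𝓝[≠] 0, t ≠ 0 ∧ t ∈ Metric.ball (0 : ℝ) (δ / 2) := by
    filter_upwards [self_mem_nhdsWithin, mem_nhdsWithin_of_mem_nhds (Metric.ball_mem_nhds (0 : ℝ) hd)]
      with t h1 h2
    exact ⟨h1, h2⟩
  filter_upwards [hev.prod_mk hev] with p hp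
  obtain ⟨⟨ht0, ht⟩, hs0, hs⟩ := hp
  obtain ⟨t, s⟩ := p
  simp only at ht0 ht hs0 hs ⊢
  have hz : (0 : ℝ) ∈ Metric.ball (0 : ℝ) (δ / 2) := Metric.mem_ball_self hd
  have hball : ∀ q ∈ Metric.ball (0 : ℝ) (δ / 2), ∀ r ∈ Metric.ball (0 : ℝ) (δ / 2),
      ‖-k2 (q - r) + k2 0‖ ≤ ε / 2 := by
    intro q hq r hr
    have h1 : dist (q - r) 0 < δ := by
      rw [Metric.mem_ball, dist_zero_right] at hq hr
      rw [dist_zero_right]
      have := norm_sub_le q r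
      linarith
    have h2 := (hδ' h1).le
    rw [dist_eq_norm] at h2
    rw [← norm_neg]
    have h3 : -(-k2 (q - r) + k2 0) = k2 (q - r) - k2 0 := by ring
    rw [h3]
    exact h2
  have hstep : ∀ q ∈ Metric.ball (0 : ℝ) (δ / 2), ‖k1 (q - t) - k1 q + t * k2 0‖ ≤ ε / 2 * ‖t‖ := by
    intro q hq
    have h1 : ∀ x ∈ Metric.ball (0 : ℝ) (δ / 2), HasDerivWithinAt
        (fun r : ℝ => k1 (q - r) + (r : ℂ) * k2 0) (-k2 (q - x) + k2 0)
        (Metric.ball (0 : ℝ) (δ / 2)) x := by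
      intro x _
      have a1 : HasDerivAt (fun r : ℝ => k1 (q - r)) (-k2 (q - x)) x := by
        have := (hk1 (q - x)).scomp x ((hasDerivAt_const x q).sub (hasDerivAt_id x))
        rw [zero_sub, neg_one_smul] at this
        exact this
      have a2 : HasDerivAt (fun r : ℝ => (r : ℂ) * k2 0) (k2 0) x := by
        have := (Complex.ofRealCLM.hasDerivAt (x := x)).mul_const (k2 0)
        rw [Complex.ofRealCLM_apply, Complex.ofReal_one, one_mul] at this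
        exact this
      exact (a1.add a2).hasDerivWithinAt
    have h2 := Convex.norm_image_sub_le_of_norm_hasDerivWithin_le (C := ε / 2) h1
      (fun x hx => hball q hq x hx) (convex_ball _ _) hz ht
    rw [sub_zero, sub_zero, Complex.ofReal_zero, zero_mul, add_zero] at h2
    have h3 : k1 (q - t) - k1 q + t * k2 0 = k1 (q - t) + t * k2 0 - k1 q := by ring
    rw [h3]
    exact h2
  have h1 : ∀ x ∈ Metric.ball (0 : ℝ) (δ / 2), HasDerivWithinAt
      (fun q : ℝ => k (q - t) - k q + (q : ℂ) * (t * k2 0)) (k1 (x - t) - k1 x + t * k2 0)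
      (Metric.ball (0 : ℝ) (δ / 2)) x := by
    intro x _
    have a1 : HasDerivAt (fun q : ℝ => k (q - t)) (k1 (x - t)) x := by
      have := (hk (x - t)).scomp x ((hasDerivAt_id x).sub (hasDerivAt_const x t))
      rw [sub_zero, one_smul] at this
      exact this
    have a2 : HasDerivAt (fun q : ℝ => (q : ℂ) * (t * k2 0)) (t * k2 0) x := by
      have := (Complex.ofRealCLM.hasDerivAt (x := x)).mul_const (t * k2 0)
      rw [Complex.ofRealCLM_apply, Complex.ofReal_one, one_mul] at this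
      exact this
    exact ((a1.sub (hk x)).add a2).hasDerivWithinAt
  have h2 := Convex.norm_image_sub_le_of_norm_hasDerivWithin_le (C := ε / 2 * ‖t‖) h1
    (fun x hx => hstep x hx) (convex_ball _ _) hz hs
  rw [sub_zero, Complex.ofReal_zero, zero_mul, add_zero, zero_sub] at h2
  have ht1 : (t : ℂ) ≠ 0 := Complex.ofReal_ne_zero.2 ht0
  have hs1 : (s : ℂ) ≠ 0 := Complex.ofReal_ne_zero.2 hs0
  have h3 : ((t : ℂ) * s)⁻¹ * (k (s - t) - k (-t) - k s + k 0) - -k2 0 =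
      ((t : ℂ) * s)⁻¹ * (k (s - t) - k s + s * (t * k2 0) - (k (-t) - k 0)) := by
    field_simp
    ring
  rw [dist_eq_norm, h3, norm_mul, norm_inv, norm_mul, Complex.norm_real, Complex.norm_real]
  have h4 : 0 < ‖t‖ * ‖s‖ := mul_pos (norm_pos_iff.2 ht0) (norm_pos_iff.2 hs0)
  rw [inv_mul_lt_iff₀ h4]
  refine h2.trans_lt ?_
  have h5 : ε / 2 * ‖t‖ * ‖s‖ = (‖t‖ * ‖s‖) * (ε / 2) := by ring
  rw [h5]
  exact mul_lt_mul_of_pos_left (half_lt_self hε) h4

section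

variable {𝓗 : Type v} [NormedAddCommGroup 𝓗] [InnerProductSpace ℂ 𝓗]

theorem sq_eq (x y : 𝓗) : (inner ℂ x x - inner ℂ x y - inner ℂ y x + inner ℂ y y : ℂ).re =
    ‖x - y‖ ^ 2 := by
  have h4 : inner ℂ x x - inner ℂ x y - inner ℂ y x + inner ℂ y y = inner ℂ (x - y) (x - y) := by
    rw [inner_sub_left, inner_sub_right, inner_sub_right]
    ring
  rw [h4]
  exact (norm_sq_eq_re_inner (𝕜 := ℂ) (x - y)).symm

theorem conv [CompleteSpace 𝓗] (d : ℝ → 𝓗) (l : Filter ℝ) [l.NeBot] (c : ℂ)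
    (hG : Tendsto (fun p : ℝ × ℝ => inner ℂ (d p.1) (d p.2)) (l ×ˢ l) (𝓝 c)) :
    ∃ η, Tendsto d l (𝓝 η) := by
  have hG' : Tendsto (fun p : ℝ × ℝ => inner ℂ (d p.2) (d p.1)) (l ×ˢ l) (𝓝 c) :=
    hG.comp (tendsto_snd.prodMk tendsto_fst)
  have hG1 : Tendsto (fun p : ℝ × ℝ => inner ℂ (d p.1) (d p.1)) (l ×ˢ l) (𝓝 c) :=
    hG.comp (tendsto_fst.prodMk tendsto_fst)
  have hG2 : Tendsto (fun p : ℝ × ℝ => inner ℂ (d p.2) (d p.2)) (l ×ˢ l) (𝓝 c) :=
    hG.comp (tendsto_snd.prodMk tendsto_snd)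
  have hsq : Tendsto (fun p : ℝ × ℝ => ‖d p.1 - d p.2‖ ^ 2) (l ×ˢ l) (𝓝 0) := by
    have h1 := ((hG1.sub hG).sub hG').add hG2
    have h2 := (Complex.continuous_re.tendsto _).comp h1
    have h3 : (c - c - c + c).re = 0 := by
      rw [show c - c - c + c = 0 by ring, Complex.zero_re]
    rw [h3] at h2
    exact h2.congr fun p => sq_eq (d p.1) (d p.2)
  have hdist : Tendsto (fun p : ℝ × ℝ => dist (d p.1) (d p.2)) (l ×ˢ l) (𝓝 0) := by
    have h1 := (Real.continuous_sqrt.tendsto 0).comp hsq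
    rw [Real.sqrt_zero] at h1
    refine h1.congr fun p => ?_
    simp only [Function.comp]
    rw [Real.sqrt_sq (norm_nonneg _), dist_eq_norm]
  have hcau : Cauchy (map d l) := by
    rw [cauchy_map_iff]
    exact ⟨inferInstance, tendsto_uniformity_iff_dist_tendsto_zero.2 hdist⟩
  exact cauchy_map_iff_exists_tendsto.1 hcau

theorem inner_d [CompleteSpace 𝓗] {E : Type u} [NormedAddCommGroup E] [InnerProductSpace ℝ E]
    {U : E → 𝓗 →L[ℂ] 𝓗} (h0 : U 0 = 1) (hadd : ∀ f g, U (f + g) = U f * U g)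
    (hst : ∀ f, star (U f) = U (-f)) {f : E} {ξ : 𝓗} {k : ℝ → ℂ}
    (hk : ∀ r : ℝ, inner ℂ ξ (U (r • f) ξ) = k r) (s t : ℝ) :
    inner ℂ (((t : ℂ) * Complex.I)⁻¹ • (U (t • f) ξ - ξ)) (((s : ℂ) * Complex.I)⁻¹ • (U (s • f) ξ - ξ)) =
      ((t : ℂ) * s)⁻¹ * (k (s - t) - k (-t) - k s + k 0) := by
  have e0 : ∀ (r : ℝ) (x : 𝓗), inner ℂ (U (r • f) ξ) x = inner ℂ ξ (U ((-r) • f) x) := by
    intro r x
    rw [neg_smul, ← hst (r • f), ContinuousLinearMap.star_eq_adjoint,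
      ContinuousLinearMap.adjoint_inner_right]
  have e1 : inner ℂ (U (t • f) ξ) (U (s • f) ξ) = k (s - t) := by
    rw [e0, ← hk (s - t), sub_eq_neg_add, add_smul, hadd]
    rfl
  have e2 : inner ℂ (U (t • f) ξ) ξ = k (-t) := by
    rw [e0, hk]
  have e3 : inner ℂ ξ ξ = k 0 := by
    rw [← hk 0, zero_smul, h0]
    rfl
  have e4 : (starRingEnd ℂ) (((t : ℂ) * Complex.I)⁻¹) * ((s : ℂ) * Complex.I)⁻¹ = ((t : ℂ) * s)⁻¹ := by
    rw [map_inv₀, map_mul, Complex.conj_I, Complex.conj_ofReal, ← mul_inv]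
    congr 1
    have : (t : ℂ) * -Complex.I * ((s : ℂ) * Complex.I) = -((t : ℂ) * s * (Complex.I * Complex.I)) := by
      ring
    rw [this, Complex.I_mul_I]
    ring
  rw [inner_smul_left, inner_smul_right, ← mul_assoc, e4, inner_sub_left, inner_sub_right,
    inner_sub_right, e1, e2, e3, hk s]
  ring

end

/-- a vector with a twice differentiable matrix coefficient is in the domain of the generator -/
theorem t : StmDom.{u,v} := by
  intro 𝓗 _ _ _ E _ _ U h0 hadd hst f ξ k k1 k2 hk hk1 hk2 hc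
  refine conv (fun t : ℝ => ((t : ℂ) * Complex.I)⁻¹ • (U (t • f) ξ - ξ)) (𝓝[≠] 0) (-k2 0) ?_
  refine (second_diff hk1 hk2 hc).congr fun p => ?_
  exact (inner_d h0 hadd hst hk p.2 p.1).symm

end Pool.Agent.Y776.BG.Dom
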